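import Pool.Agent.W945.Lc.Stm2

namespace Pool.Agent.W717.Lc2.TABA

open Pool.Agent.W945.Pw Pool.Agent.W945.Lc

def Q (l m : ℕ) : Prop := ∀ k < 2 ^ l + 1, tabA l k ≠ 0 → ∀ j < 2 ^ m + 1,
  tabA l k * tabA m j ≤ tabA (l + m) (k * j) ∨ tabA m j = 0

instance (l m : ℕ) : Decidable (Q l m) := by
  unfold Q
  infer_instance

theorem part3 : ∀ l < 11, ∀ m < 11, (1 ≤ l ∧ 1 ≤ m ∧ l + m ≤ 10) → Q l m := by
  decide +kernel

theorem main : TABA.Stm := by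
  unfold TABA.Stm
  refine ⟨?_, ?_, ?_, ?_, ?_⟩
  · decide +kernel
  · decide +kernel
  · intro l hl m hm h1 h2 h3 k hk j hj h4 h5
    exact (part3 l hl m hm ⟨h1, h2, h3⟩ k hk h4 j hj).resolve_right h5
  · decide +kernel
  · decide +kernel

end Pool.Agent.W717.Lc2.TABA
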